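import Mathlib
import Pool.Agent.Q148.BM.Red

/-!
# The numerical Breuil–Mézard conjecture for `GL_n`: one-sided relations and lifts of Serre weights

Notation. `K / ℚ_p` has residue degree `f` and ramification index `e`; `Emb f e = ℤ/f × Fin e`
is the set of embeddings `K → E`, `(i, t)` lying over the embedding `i` of the residue field and
`i + 1` being `Frobenius ∘ i`. A labelled weight `l : HT (Emb f e) d` is a family of `d` integers
for every embedding; `Reg l`: strictly decreasing at every embedding, i.e. `l = λ + (d-1,…,0)`
with a Hodge type `λ`.
-/

namespace Pool.Agent.Results.MP_7cb106_nt.OneSidedRelations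

open Q148.BM Finset

/-- The data of the conjecture for a fixed residual representation of `G_K` of dimension `d` with
the properties that are used. `T`: inertial types. `W`: Serre weights. `n t k l`: the
multiplicity of `k` in the reduction of `L_l ⊗ σ(t)`. `mult t l`: the Hilbert–Samuel multiplicity
of the special fibre of the potentially crystalline ring of type `t` and Hodge type `λ`. `μ`:
numbers attached to the Serre weights (the multiplicities of patched modules). -/
structure LowerData (p f e d : ℕ) [NeZero f] [NeZero e] [NeZero d] (T W : Type*)
    [Fintype W] where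
  /-- multiplicities of Serre weights -/
  n : T → W → HT (Emb f e) d → ℤ
  /-- Hilbert–Samuel multiplicities -/
  mult : T → HT (Emb f e) d → ℤ
  /-- numbers attached to the Serre weights -/
  μ : W → ℤ
  /-- Brauer characters: the multiplicities satisfy the Frobenius relations -/
  frobenius_n : ∀ t k, PowRel p d (n t k)
  /-- twisting by crystalline characters which are trivial modulo `p` -/
  twist : ∀ t, TwistRel p (mult t)
  /-- the lower bound of patching -/
  lower : ∀ t l, Reg l → ∑ k, n t k l * μ k ≤ mult t l

/-- Given the lower bound, the identity of the conjecture holds with the numbers `μ` for all Hodge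
types and inertial types if and only if it holds for the finitely many Hodge types which lift
Serre weights and the one-sided relations hold at the regular weights. -/
theorem result {p f e d : ℕ} [NeZero f] [NeZero e] [NeZero d] (hp : p.Prime) {T W : Type*}
    [Fintype W] (D : LowerData p f e d T W) :
    (∀ t l, Reg l → D.mult t l = ∑ k, D.n t k l * D.μ k) ↔
      (∀ t b, IsLift p b → D.mult t b = ∑ k, D.n t k b * D.μ k) ∧
      ∀ t,
        (∀ (i : ZMod f) (m : ℕ), 1 ≤ m → m < d → ∀ l : HT (Emb f e) d, Reg l →
          ∑ S ∈ powersetCard m univ, alt (D.mult t) (l + bump (i, 0) S p) ≤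
            ∑ S ∈ powersetCard m univ, alt (D.mult t) (l + bump (i + 1, 0) S 1)) ∧
        (∀ (i : ZMod f) (a : Fin e) (m : ℕ), 1 ≤ m → m < d → ∀ l : HT (Emb f e) d, Reg l →
          ∑ S ∈ powersetCard m univ, alt (D.mult t) (l + bump (i, a) S 1) ≤
            ∑ S ∈ powersetCard m univ, alt (D.mult t) (l + bump (i, 0) S 1)) := by
  constructor
  · intro h
    have h0 : ∀ t b, IsLift p b → D.mult t b = ∑ k, D.n t k b * D.μ k :=
      fun t b hb => h t b hb.1
    exact ⟨h0, (one_sided_reg hp.two_le D.n D.frobenius_n D.mult D.twist D.μ D.lower h0).1 h⟩
  · rintro ⟨h0, h1⟩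
    exact (one_sided_reg hp.two_le D.n D.frobenius_n D.mult D.twist D.μ D.lower h0).2 h1

end Pool.Agent.Results.MP_7cb106_nt.OneSidedRelations
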