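import Mathlib
import Pool.Agent.Q148.BM.Main

/-!
# The numerical Breuil–Mézard conjecture for `GL_n`, reduced to recursions and to lifts of
Serre weights

Notation. `K / ℚ_p` has residue degree `f` and ramification index `e`; `Emb f e = ℤ/f × Fin e`
is the set of embeddings `K → E`, `(i, t)` lying over the embedding `i` of the residue field and
`i + 1` being `Frobenius ∘ i`. A labelled weight `l : HT (Emb f e) d` is a family of `d` integers
for every embedding; `Reg l`: strictly decreasing at every embedding, i.e. `l = λ + (d-1,…,0)`
with a Hodge type `λ`.
-/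

namespace Pool.Agent.Results.MP_7cb106_nt.RelationsAndLifts

open Q148.BM Finset

/-- The data of the conjecture for `K` and `GL_d`, and the published properties that are used.
`R`: the residual representations. `T`: inertial types, `t0` the trivial one. `W`: Serre weights.
`n t k l`: the multiplicity of `k` in the reduction of `L_l ⊗ σ(t)`. `mult r t l`: the
Hilbert–Samuel multiplicity of the special fibre of the potentially crystalline ring of `r`. -/
structure NumData (p f e d : ℕ) [NeZero f] [NeZero e] [NeZero d] (R T W : Type*)
    [Fintype W] where
  /-- the trivial inertial type -/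
  t0 : T
  /-- multiplicities of Serre weights -/
  n : T → W → HT (Emb f e) d → ℤ
  /-- Hilbert–Samuel multiplicities -/
  mult : R → T → HT (Emb f e) d → ℤ
  /-- the number of Serre weights is `(q - 1) q ^ (d - 1)` -/
  card_weights : Fintype.card W = (p ^ f - 1) * p ^ (f * (d - 1))
  /-- Brauer characters: the multiplicities satisfy the Frobenius relations -/
  frobenius_n : ∀ t k, PowRel p d (n t k)
  /-- the multiplicity vectors of the trivial type span -/
  span_n : Submodule.span ℤ {v : W → ℤ | ∃ l, Reg l ∧ v = fun k => n t0 k l} = ⊤
  /-- twisting by crystalline characters which are trivial modulo `p` -/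
  twist : ∀ r t, TwistRel p (mult r t)
  /-- duality of representations -/
  dual : ∃ (δR : R ≃ R) (δT : T ≃ T), ∀ r t l, Reg l →
    mult r t (revNeg l) = mult (δR r) (δT t) l

/-- The conjecture holds for all residual representations, all Hodge types and all inertial types
if and only if (i) the multiplicities satisfy the recursions of degree at most `d / 2`;
(ii) for every lift `b` of a Serre weight, `mult r t b` is the combination of the crystalline
multiplicities of lifts with the coefficients of `L_b ⊗ σ(t)`; (iii) the combinations of
crystalline multiplicities of lifts attached to the Serre weights are not negative. -/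
theorem result {p f e d : ℕ} [NeZero f] [NeZero e] [NeZero d] (hp : p.Prime)
    {R T W : Type*} [Fintype W] [DecidableEq W] (D : NumData p f e d R T W) :
    (∀ r, ∃ μ : W → ℤ, (∀ k, 0 ≤ μ k) ∧
        ∀ t l, Reg l → D.mult r t l = ∑ k, D.n t k l * μ k) ↔
      (∀ (r : R) (t : T) (i : ZMod f) (a a' : Fin e) (m : ℕ), 1 ≤ m → m ≤ d / 2 →
        ∀ l : HT (Emb f e) d,
          ∑ s, alt (D.mult r t) (l + bump (i, a) {s} (m * p)) =
            ∑ s, alt (D.mult r t) (l + bump (i + 1, a') {s} m)) ∧
      (∀ r t b, IsLift p b → ∀ m, Comb p (D.n D.t0) (fun k => D.n t k b) m →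
        D.mult r t b = m.sum fun b' c => c * D.mult r D.t0 b') ∧
      (∀ r k m, Comb p (D.n D.t0) (Pi.single k 1) m →
        0 ≤ m.sum fun b' c => c * D.mult r D.t0 b') := by
  obtain ⟨δR, δT, hδ⟩ := D.dual
  exact criterion_num hp.two_le D.card_weights D.t0 D.n D.frobenius_n D.span_n D.mult D.twist
    δR δT hδ

end Pool.Agent.Results.MP_7cb106_nt.RelationsAndLifts
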