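import Mathlib
import Pool.Agent.Q148.BM.Tens

/-!
# The numerical Breuil–Mézard conjecture for `GL_n` and tame types, without unknown
multiplicities

Notation. `J`: the embeddings `K → E`. A labelled weight `l : HT J d` is a family of `d` integers
for every embedding; `Reg l`: strictly decreasing at every embedding, i.e. `l = λ + (d-1,…,0)`
with a Hodge type `λ`; `eta = (d-1,…,0)` is the Hodge type `0`. `T`: the irreducible
representations `σ(t)` of `GL_d(k)` in characteristic zero (`k` the residue field); they
correspond to the tame inertial types together with a monodromy stratum. The trivial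
representation corresponds to the trivial inertial type and `N = 0` (the crystalline case).
-/

namespace Pool.Agent.Results.MP_7cb106_nt.TameTypes

open Q148.BM Finset

/-- The data of the conjecture for `K`, `GL_d` and tame types, with the published properties that
are used. `R`: the residual representations. `V`: Serre weights. `n t k l`: the multiplicity of
`k` in the reduction of `L_l ⊗ σ(t)`. `mult r t l`: the multiplicity of the special fibre of the
potentially semistable ring of `r` for `σ(t)` (its components are counted with the multiplicity
of `σ(t)` in the attached smooth representations; for potentially crystalline types it is the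
Hilbert–Samuel multiplicity of the problem). -/
structure TameData (d : ℕ) (J T V R : Type*) [Fintype J] [DecidableEq J] [Fintype V] where
  /-- multiplicities of Serre weights -/
  n : T → V → HT J d → ℤ
  /-- multiplicities of the special fibres -/
  mult : R → T → HT J d → ℤ
  /-- `c j i t t'`: the coefficient of `σ(t')` in the product of `σ(t)` with the Brauer lift of
  the `i`-th exterior power of the standard representation (along `j`) -/
  c : J → ℕ → T → (T →₀ ℤ)
  /-- `σ(τ j t)` is the product of `σ(t)` with the Brauer lift of the determinant -/
  τ : J → T ≃ T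
  /-- the meaning of `τ` -/
  det : ∀ j t, c j d t = Finsupp.single (τ j t) 1
  /-- Pieri's rule: the multiplicities of Serre weights satisfy the tensor relations -/
  tensor_n : ∀ k, TensRel d c (fun t => n t k)
  /-- Brauer: the decomposition map of `GL_d(k)` is surjective -/
  span_n : Submodule.span ℤ (Set.range fun t k => n t k eta) = ⊤
  /-- twisting by potentially crystalline characters which are trivial modulo `p` -/
  twist : ∀ r, TwistT τ (mult r)
  /-- duality -/
  dual : ∃ (δR : R → R) (δ : T → T),
    (∀ r t l, Reg l → mult r t (revNeg l) = mult (δR r) (δ t) l) ∧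
    ∀ j i t, d / 2 < i → i < d → (c j i t).mapDomain δ = c j (d - i) (δ (τ j t))

/-- The conjecture for tame types holds for all residual representations and all Hodge types if
and only if the multiplicities satisfy the tensor relations of degree at most `d / 2` and, for
Hodge type zero, are nonnegative on the virtual representations of `GL_d(k)` whose reduction
modulo `p` is effective. -/
theorem result {d : ℕ} (hd : 0 < d) {J T V R : Type*} [Fintype J] [DecidableEq J] [Fintype V]
    (D : TameData d J T V R) :
    (∀ r, ∃ μ : V → ℤ, (∀ k, 0 ≤ μ k) ∧
        ∀ t l, Reg l → D.mult r t l = ∑ k, D.n t k l * μ k) ↔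
      (∀ r t (j : J) (i : ℕ), 1 ≤ i → i ≤ d / 2 → ∀ l : HT J d,
        ∑ S ∈ powersetCard i univ, alt (D.mult r t) (l + bump j S 1) =
          (D.c j i t).sum fun t' m => m * alt (D.mult r t') l) ∧
      (∀ r (m : T →₀ ℤ), (∀ k, 0 ≤ m.sum fun t x => x * D.n t k eta) →
        0 ≤ m.sum fun t x => x * D.mult r t eta) := by
  obtain ⟨δR, δ, hδ, hcd⟩ := D.dual
  have h1 := criterionT_dual hd D.det D.tensor_n D.mult D.twist δR δ (AddEquiv.refl ℤ) hδ hcd
    (fun _ μ => ∀ k, 0 ≤ μ k)
  have h2 : ∀ r, (∃ μ : V → ℤ, (∀ k, 0 ≤ μ k) ∧
      ∀ t, D.mult r t eta = ∑ k, D.n t k eta • μ k) ↔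
      ∀ m : T →₀ ℤ, (∀ k, 0 ≤ m.sum fun t x => x * D.n t k eta) →
        0 ≤ m.sum fun t x => x * D.mult r t eta :=
    fun r => factor_num D.span_n fun t => D.mult r t eta
  simp only [h2] at h1
  exact h1

end Pool.Agent.Results.MP_7cb106_nt.TameTypes
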