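import Mathlib
import Pool.Agent.Q148.BM.PieriDual

/-!
# The numerical Breuil–Mézard conjecture for `GL_n` and wild principal series types, reduced to
Hodge type zero and Pieri relations

Notation. `J`: the embeddings `K → E`. A labelled weight `l : HT J d` is a family of `d` integers
for every embedding; `Reg l`: strictly decreasing at every embedding, i.e. `l = λ + (d-1,…,0)`
with a Hodge type `λ`; `eta = (d-1,…,0)` is the Hodge type `0`. `X`: the group of smooth
characters of the units of `K`; `W`: the tame ones. `χ : Fin d → X` stands for the inertial type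
`⊕ χ s`; `Wild W χ`: no ratio of two of the characters is tame.
-/

namespace Pool.Agent.Results.MP_7cb106_nt.WildPrincipalSeries

open Q148.BM Finset

/-- The data of the conjecture for `K` and `GL_d` and inertial types which are sums of characters,
with the published properties that are used. `R`: the residual representations. `V`: Serre
weights. `n χ k l`: the multiplicity of `k` in the reduction of `L_l ⊗ σ(χ)`. `mult r χ l`: the
Hilbert–Samuel multiplicity of the special fibre of the potentially crystalline ring of `r`. -/
structure WildData (d : ℕ) (J X V R : Type*) [Fintype J] [DecidableEq J] [CommGroup X]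
    [Fintype V] where
  /-- the tame characters -/
  W : Subgroup X
  /-- the Teichmüller lifts of the embeddings modulo `p` -/
  ω : J → X
  /-- they are tame -/
  ω_tame : ∀ j, ω j ∈ W
  /-- multiplicities of Serre weights -/
  n : (Fin d → X) → V → HT J d → ℤ
  /-- Hilbert–Samuel multiplicities -/
  mult : R → (Fin d → X) → HT J d → ℤ
  /-- `σ(χ)` is induced from a group whose quotient of order prime to `p` is the torus: the
  multiplicities satisfy the Pieri relations -/
  pieri_n : ∀ k, Pieri W ω (fun χ => n χ k)
  /-- twisting by potentially crystalline characters which are trivial modulo `p` -/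
  twist : ∀ r, TwistX W ω (mult r)
  /-- duality of representations -/
  dual : ∃ δ : R → R, ∀ r χ, Wild W χ → ∀ l, Reg l →
    mult r χ (revNeg l) = mult (δ r) (fun s => (χ s)⁻¹) l

/-- The conjecture restricted to wild principal series types holds for all residual
representations and all Hodge types if and only if it holds for Hodge type zero and the
multiplicities satisfy the Pieri relations of degree at most `d / 2`. -/
theorem result {d : ℕ} (hd : 0 < d) {J X V R : Type*} [Fintype J] [DecidableEq J] [CommGroup X]
    [Fintype V] (D : WildData d J X V R) :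
    (∀ r, ∃ μ : V → ℤ, (∀ k, 0 ≤ μ k) ∧
        ∀ χ, Wild D.W χ → ∀ l, Reg l → D.mult r χ l = ∑ k, D.n χ k l * μ k) ↔
      (∀ r χ, Wild D.W χ → ∀ (j : J) (i : ℕ), 1 ≤ i → i ≤ d / 2 → ∀ l : HT J d,
        ∑ S ∈ powersetCard i univ, alt (D.mult r χ) (l + bump j S 1) =
          ∑ B ∈ powersetCard i univ, alt (D.mult r (tw D.ω j B χ)) l) ∧
      (∀ r, ∃ μ : V → ℤ, (∀ k, 0 ≤ μ k) ∧
        ∀ χ, Wild D.W χ → D.mult r χ eta = ∑ k, D.n χ k eta * μ k) := by
  obtain ⟨δ, hδ⟩ := D.dual
  exact criterionP_dual D.ω_tame hd D.pieri_n D.mult D.twist δ (AddEquiv.refl ℤ) hδ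
    (fun _ μ => ∀ k, 0 ≤ μ k)

end Pool.Agent.Results.MP_7cb106_nt.WildPrincipalSeries
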